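import Pool.Agent.MP_13e7a1_an.H82.Spec

/-!
An almost everywhere upper bound of a plurisubharmonic function by a continuous function holds
everywhere.
-/

open scoped ContDiff Topology
open Set Metric MeasureTheory Filter

noncomputable section

namespace Pool.Agent.MP_13e7a1_an.H95

open Pool.Agent.MP_13e7a1_an.H82

/-- The preimage of a null set is null where the derivative is invertible. -/
theorem null_preimage (f : E → E) (hf : ContDiff ℝ 1 f) (N : Set E) (hN : MeasurableSet N)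
    (h0 : volume N = 0) : volume {W | (fderiv ℝ f W).det ≠ 0 ∧ f W ∈ N} = 0 := by
  have hdc : Continuous fun W => (fderiv ℝ f W).det :=
    ContinuousLinearMap.continuous_det.comp (hf.continuous_fderiv one_ne_zero)
  have hS : MeasurableSet {W | (fderiv ℝ f W).det ≠ 0 ∧ f W ∈ N} :=
    (isOpen_ne_fun hdc continuous_const).measurableSet.inter (hf.continuous.measurable hN)
  apply measure_null_of_locally_null
  intro a ha
  have hs : HasStrictFDerivAt f
      ((fderiv ℝ f a).toContinuousLinearEquivOfDetNeZero ha.1 : E →L[ℝ] E) a := by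
    rw [ContinuousLinearMap.coe_toContinuousLinearEquivOfDetNeZero]
    exact hf.contDiffAt.hasStrictFDerivAt one_ne_zero
  obtain ⟨O, hO, hOo, haO⟩ := _root_.mem_nhds_iff.1 hs.eventually_left_inverse
  set S := {W | (fderiv ℝ f W).det ≠ 0 ∧ f W ∈ N} with hSdef
  refine ⟨S ∩ O, inter_mem_nhdsWithin _ (hOo.mem_nhds haO), ?_⟩
  have hm : MeasurableSet (S ∩ O) := hS.inter hOo.measurableSet
  have hinj : InjOn f (S ∩ O) := by
    intro x hx y hy hxy
    have h1 : hs.localInverse f _ a (f x) = x := hO hx.2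
    have h2 : hs.localInverse f _ a (f y) = y := hO hy.2
    rw [← h1, ← h2, hxy]
  have hint := lintegral_abs_det_fderiv_eq_addHaar_image (volume : Measure E) hm
    (f' := fderiv ℝ f)
    (fun x _ => ((hf.differentiable one_ne_zero) x).hasFDerivAt.hasFDerivWithinAt) hinj
  have him : volume (f '' (S ∩ O)) = 0 := by
    refine measure_mono_null ?_ h0
    rintro _ ⟨x, hx, rfl⟩
    exact hx.1.2
  rw [him] at hint
  have hmeas : Measurable fun x => ENNReal.ofReal |(fderiv ℝ f x).det| :=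
    ENNReal.measurable_ofReal.comp hdc.abs.measurable
  rw [lintegral_eq_zero_iff hmeas, EventuallyEq, ae_restrict_iff' hm] at hint
  refine measure_mono_null ?_ (ae_iff.1 hint)
  intro x hx h
  have h3 := h hx
  simp only [Pi.zero_apply, ENNReal.ofReal_eq_zero] at h3
  exact hx.1.1 (abs_nonpos_iff.1 h3)

theorem det_ne (A : E →L[ℝ] E) (hA : ∀ Z, A (A Z) = -Z) (a b : ℝ) (hab : a ^ 2 + b ^ 2 ≠ 0) :
    (a • ContinuousLinearMap.id ℝ E + b • A).det ≠ 0 := by
  intro h
  have h1 := LinearMap.bot_lt_ker_of_det_eq_zero h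
  obtain ⟨v, hv, hv0⟩ := (Submodule.ne_bot_iff _).1 h1.ne'
  have h2 : a • v + b • A v = 0 := by simpa using hv
  have h3 : a • A v - b • v = 0 := by
    have := congrArg A h2
    simpa [hA, sub_eq_add_neg] using this
  have h4 : (a ^ 2 + b ^ 2) • v = a • (a • v + b • A v) - b • (a • A v - b • v) := by
    module
  rw [h2, h3, smul_zero, smul_zero, sub_zero] at h4
  exact hv0 ((smul_eq_zero.1 h4).resolve_left hab)

/-- Some disc of the family meets a null set only in a null set of angles. -/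
theorem exists_disc (c : Ctx) (p : E) (R δ : ℝ) (hδ : 0 < δ) (lam : E × E × ℂ → E)
    (hl : c.Fam p R δ lam) (N : Set E) (hN : MeasurableSet N) (h0 : volume N = 0) :
    ∃ W ∈ ball (0 : E) δ, ∀ᵐ t : ℝ, t ∈ Icc 0 (2 * Real.pi) →
      lam (p, W, circleMap 0 (1 / 2) t) ∉ N := by
  have hsm : ∀ ζ : ℂ, ContDiff ℝ 1 fun W : E => lam (p, W, ζ) := fun ζ =>
    (hl.smooth.of_le (by exact_mod_cast le_top)).comp
      (contDiff_const.prodMk (contDiff_id.prodMk contDiff_const))
  have hcm : Continuous (circleMap 0 (1 / 2)) := continuous_circleMap _ _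
  have hfd : Continuous fun z : E × ℝ =>
      fderiv ℝ (fun W : E => lam (p, W, circleMap 0 (1 / 2) z.2)) z.1 := by
    have h1 : ContDiff ℝ 1 (Function.uncurry fun (z : E × ℂ) (W : E) => lam (p, W, z.2)) :=
      (hl.smooth.of_le (by exact_mod_cast le_top)).comp
        (contDiff_const.prodMk (contDiff_snd.prodMk (contDiff_snd.comp contDiff_fst)))
    have h2 := Continuous.fderiv h1 (g := fun z : E × ℂ => z.1) continuous_fst le_rfl
    exact h2.comp (continuous_fst.prodMk (hcm.comp continuous_snd))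
  have hdc : Continuous fun z : E × ℝ =>
      (fderiv ℝ (fun W : E => lam (p, W, circleMap 0 (1 / 2) z.2)) z.1).det :=
    ContinuousLinearMap.continuous_det.comp hfd
  have hG : IsOpen {z : E × ℝ |
      (fderiv ℝ (fun W : E => lam (p, W, circleMap 0 (1 / 2) z.2)) z.1).det ≠ 0} :=
    isOpen_ne_fun hdc continuous_const
  have hΦ : Continuous fun z : E × ℝ => lam (p, z.1, circleMap 0 (1 / 2) z.2) :=
    hl.smooth.continuous.comp
      (continuous_const.prodMk (continuous_fst.prodMk (hcm.comp continuous_snd)))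
  have hmeas : MeasurableSet {z : E × ℝ |
      ¬ ((fderiv ℝ (fun W : E => lam (p, W, circleMap 0 (1 / 2) z.2)) z.1).det ≠ 0 ∧
        lam (p, z.1, circleMap 0 (1 / 2) z.2) ∈ N)} :=
    (hG.measurableSet.inter (hΦ.measurable hN)).compl
  have hae : ∀ᵐ W : E, ∀ᵐ t : ℝ,
      ¬ ((fderiv ℝ (fun W : E => lam (p, W, circleMap 0 (1 / 2) t)) W).det ≠ 0 ∧
        lam (p, W, circleMap 0 (1 / 2) t) ∈ N) := by
    refine (Measure.ae_ae_comm (p := fun (W : E) (t : ℝ) =>
      ¬ ((fderiv ℝ (fun W : E => lam (p, W, circleMap 0 (1 / 2) t)) W).det ≠ 0 ∧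
        lam (p, W, circleMap 0 (1 / 2) t) ∈ N)) hmeas).2 (ae_of_all _ fun t => ?_)
    rw [ae_iff]
    simpa only [not_not] using null_preimage _ (hsm (circleMap 0 (1 / 2) t)) N hN h0
  have htube : ∀ᶠ W in 𝓝 (0 : E), ∀ t ∈ Icc 0 (2 * Real.pi),
      (fderiv ℝ (fun W : E => lam (p, W, circleMap 0 (1 / 2) t)) W).det ≠ 0 := by
    refine isCompact_Icc.eventually_forall_of_forall_eventually
      (P := fun (W : E) (t : ℝ) =>
        (fderiv ℝ (fun W : E => lam (p, W, circleMap 0 (1 / 2) t)) W).det ≠ 0) fun t _ => ?_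
    refine hG.mem_nhds ?_
    have hn : ‖circleMap 0 (1 / 2) t‖ = 1 / 2 := by
      rw [norm_circleMap_zero]; norm_num
    have hmem : circleMap 0 (1 / 2) t ∈ ball (0 : ℂ) 1 := by
      rw [mem_ball_zero_iff, hn]; norm_num
    show (fderiv ℝ (fun W : E => lam (p, W, circleMap 0 (1 / 2) t)) 0).det ≠ 0
    rw [hl.lin _ hmem]
    refine det_ne _ (c.sq p) _ _ ?_
    have h2 : (circleMap 0 (1 / 2) t).re ^ 2 + (circleMap 0 (1 / 2) t).im ^ 2 =
        ‖circleMap 0 (1 / 2) t‖ ^ 2 := by
      rw [Complex.sq_norm, Complex.normSq_apply]; ring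
    rw [h2, hn]; norm_num
  have hpos : volume ({W : E | ∀ t ∈ Icc 0 (2 * Real.pi),
      (fderiv ℝ (fun W : E => lam (p, W, circleMap 0 (1 / 2) t)) W).det ≠ 0} ∩ ball 0 δ) ≠ 0 :=
    (Measure.measure_pos_of_mem_nhds volume (inter_mem htube (ball_mem_nhds _ hδ))).ne'
  obtain ⟨W, hW, hW'⟩ := Measure.exists_mem_of_measure_ne_zero_of_ae hpos (ae_restrict_of_ae hae)
  refine ⟨W, hW.2, ?_⟩
  filter_upwards [hW'] with t ht htI hN'
  exact ht ⟨hW.1 t htI, hN'⟩

theorem ae (hD : SDisc) : SAE := by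
  intro c U u β K hU hu hK hβ hae x hx
  refine le_of_forall_pos_le_add fun γ hγ => ?_
  have hnb : U ∩ {y | β y < β x + γ} ∈ 𝓝 x :=
    inter_mem (hU.mem_nhds hx)
      ((isOpen_lt hβ continuous_const).mem_nhds (by simpa using hγ))
  obtain ⟨R, hR, hRU⟩ := Metric.mem_nhds_iff.1 hnb
  obtain ⟨δ, hδ, -, lam, hl⟩ := hD c x R hR
  rw [ae_restrict_iff' hU.measurableSet, ae_iff] at hae
  obtain ⟨N, hsub, hN, h0⟩ := exists_measurable_superset_of_null hae
  obtain ⟨W, hW, hW'⟩ := exists_disc c x R δ hδ lam hl N hN h0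
  have hx0 : x ∈ ball x δ := mem_ball_self hδ
  have hsm : ContDiff ℝ ∞ fun ζ : ℂ => lam (x, W, ζ) :=
    hl.smooth.comp (contDiff_const.prodMk (contDiff_const.prodMk contDiff_id))
  have hmaps : MapsTo (fun ζ : ℂ => lam (x, W, ζ)) (ball 0 1) U := fun ζ hζ =>
    (hRU (hl.maps x hx0 W hW ζ hζ)).1
  have hsub2 := hu.2 _ hsm hmaps (hl.hol x hx0 W hW) (1 / 2) (by norm_num) (by norm_num)
  simp only [hl.zero x hx0 W hW] at hsub2
  refine hsub2.trans ?_
  have hmem : ∀ t : ℝ, circleMap 0 (1 / 2) t ∈ ball (0 : ℂ) 1 := fun t => by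
    rw [mem_ball_zero_iff, norm_circleMap_zero]; norm_num
  have hcont : Continuous fun t : ℝ => lam (x, W, circleMap 0 (1 / 2) t) :=
    hsm.continuous.comp (continuous_circleMap _ _)
  have husc : UpperSemicontinuous fun t : ℝ => u (lam (x, W, circleMap 0 (1 / 2) t)) := by
    rw [← upperSemicontinuousOn_univ_iff]
    exact hu.1.comp hcont.continuousOn fun t _ => hmaps (hmem t)
  have hπ : (0 : ℝ) ≤ 2 * Real.pi := by positivity
  have hint : IntervalIntegrable (fun t : ℝ => u (lam (x, W, circleMap 0 (1 / 2) t))) volume 0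
      (2 * Real.pi) := by
    refine (intervalIntegrable_const (c := K)).mono_fun' husc.measurable.aestronglyMeasurable
      (ae_of_all _ fun t => ?_)
    exact hK _ (hmaps (hmem t))
  have hle : ∫ t in (0 : ℝ)..2 * Real.pi, u (lam (x, W, circleMap 0 (1 / 2) t)) ≤
      ∫ _ in (0 : ℝ)..2 * Real.pi, (β x + γ) := by
    refine intervalIntegral.integral_mono_ae_restrict hπ hint intervalIntegrable_const ?_
    rw [EventuallyLE, ae_restrict_iff' measurableSet_Icc]
    filter_upwards [hW'] with t ht htI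
    have h1 := hRU (hl.maps x hx0 W hW _ (hmem t))
    have h2 : u (lam (x, W, circleMap 0 (1 / 2) t)) ≤ β (lam (x, W, circleMap 0 (1 / 2) t)) := by
      by_contra h
      exact ht htI (hsub fun h' => h (h' h1.1))
    exact h2.trans (le_of_lt h1.2)
  rw [Real.circleAverage_def, smul_eq_mul]
  rw [intervalIntegral.integral_const, sub_zero, smul_eq_mul] at hle
  have hπ' : (0 : ℝ) < 2 * Real.pi := by positivity
  calc (2 * Real.pi)⁻¹ * ∫ t in (0 : ℝ)..2 * Real.pi, u (lam (x, W, circleMap 0 (1 / 2) t))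
      ≤ (2 * Real.pi)⁻¹ * (2 * Real.pi * (β x + γ)) :=
        mul_le_mul_of_nonneg_left hle (inv_nonneg.2 hπ)
    _ = β x + γ := by field_simp

end Pool.Agent.MP_13e7a1_an.H95
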